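import Pool.Agent.H18.DC.Final

/-!
# Size of convex decompositions of piecewise linear functions: no polynomial bound

The negated form of Q1 of MP_8e96ff_co: for every polynomial `p` there are `n`, `q` and a CPWL
function `f` on `ℝⁿ` with `q` pieces such that in every decomposition `f = g - h` into convex CPWL
functions, `h` has more than `p(n,q)` pieces.
-/

open Set DC

namespace Pool.Agent.Results.MP_8e96ff_co.NoPolynomialDecomposition

/-- For every real polynomial `p` in two variables there are `n, q ≥ 1` and a continuous piecewise
linear function `f` on `ℝⁿ` with exactly `q` pieces such that for all convex continuous piecewise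
linear functions `g` and `h` with `f = g - h`, the number of pieces of `h` is more than
`p(n,q)`. -/
theorem result (p : MvPolynomial (Fin 2) ℝ) :
    ∃ (n q : ℕ) (f : (Fin n → ℝ) → ℝ), 1 ≤ n ∧ 1 ≤ q ∧ IsCPWL f ∧ HasPieces f q ∧
      ∀ g h : (Fin n → ℝ) → ℝ, IsCPWL g → IsCPWL h → ConvexOn ℝ univ g → ConvexOn ℝ univ h →
        (∀ x, f x = g x - h x) →
          ∃ N : ℕ, HasPieces h N ∧ MvPolynomial.eval ![(n : ℝ), (q : ℝ)] p < N :=
  negated_form p

end Pool.Agent.Results.MP_8e96ff_co.NoPolynomialDecomposition
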